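import Mathlib
import Pool.Agent.W663.SX.Stm

/-! # D-optimal design for convex sets of positive semidefinite matrices -/

set_option autoImplicit false
open scoped Matrix.Norms.L2Operator Matrix ComplexOrder MatrixOrder

noncomputable section

namespace Pool.Agent.W579.SX.KW

open Pool.Agent.W663.SX

lemma one_add_sum_le {ι : Type*} (s : Finset ι) (x : ι → ℝ) (hx : ∀ i ∈ s, 0 ≤ x i) :
    1 + ∑ i ∈ s, x i ≤ ∏ i ∈ s, (1 + x i) := by
  classical
  induction s using Finset.induction_on with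
  | empty => simp
  | insert a s ha ih =>
    rw [Finset.sum_insert ha, Finset.prod_insert ha]
    have h1 := ih (fun i hi => hx i (Finset.mem_insert_of_mem hi))
    have h2 := hx a (Finset.mem_insert_self a s)
    have h3 : 0 ≤ ∑ i ∈ s, x i :=
      Finset.sum_nonneg (fun i hi => hx i (Finset.mem_insert_of_mem hi))
    nlinarith [mul_nonneg h2 h3]

lemma prod_lb {ι : Type*} (s : Finset ι) (a : ℝ) (x : ι → ℝ) (ha0 : 0 ≤ a) (ha1 : a ≤ 1)
    (hx : ∀ i ∈ s, 0 ≤ x i) :
    a ^ s.card * (1 + ∑ i ∈ s, x i) ≤ ∏ i ∈ s, (a + x i) := by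
  have h1 := one_add_sum_le s x hx
  calc a ^ s.card * (1 + ∑ i ∈ s, x i) ≤ a ^ s.card * ∏ i ∈ s, (1 + x i) :=
        mul_le_mul_of_nonneg_left h1 (pow_nonneg ha0 _)
    _ = ∏ i ∈ s, (a * (1 + x i)) := by rw [Finset.prod_mul_distrib, Finset.prod_const]
    _ ≤ ∏ i ∈ s, (a + x i) := by
        apply Finset.prod_le_prod
        · intro i hi
          have := hx i hi
          positivity
        · intro i hi
          nlinarith [hx i hi]

lemma det_lb {d : ℕ} (K : Matrix (Fin d) (Fin d) ℂ) (hK : K.PosSemidef) (t : ℝ)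
    (ht0 : 0 ≤ t) (ht1 : t ≤ 1) :
    (1 - t) ^ d * (1 + t * K.trace.re) ≤
      ((((1 - t : ℝ) : ℂ) • (1 : Matrix (Fin d) (Fin d) ℂ) + (t : ℂ) • K).det).re := by
  set l := hK.1.eigenvalues with hl
  have hl0 : ∀ i, 0 ≤ l i := hK.eigenvalues_nonneg
  have htr : K.trace.re = ∑ i, l i := by
    rw [hK.1.trace_eq_sum_eigenvalues]
    simp [hl]
  have hsp := hK.1.spectral_theorem
  rw [Unitary.conjStarAlgAut_apply] at hsp
  have hU : (hK.1.eigenvectorUnitary : Matrix (Fin d) (Fin d) ℂ) *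
      star (hK.1.eigenvectorUnitary : Matrix (Fin d) (Fin d) ℂ) = 1 :=
    Unitary.mul_star_self_of_mem hK.1.eigenvectorUnitary.2
  have hM : (((1 - t : ℝ) : ℂ) • (1 : Matrix (Fin d) (Fin d) ℂ) + (t : ℂ) • K) =
      (hK.1.eigenvectorUnitary : Matrix (Fin d) (Fin d) ℂ) *
        Matrix.diagonal (fun i => (((1 - t) + t * l i : ℝ) : ℂ)) *
        star (hK.1.eigenvectorUnitary : Matrix (Fin d) (Fin d) ℂ) := by
    have hd : Matrix.diagonal (fun i => (((1 - t) + t * l i : ℝ) : ℂ)) =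
        ((1 - t : ℝ) : ℂ) • (1 : Matrix (Fin d) (Fin d) ℂ) +
          (t : ℂ) • Matrix.diagonal (RCLike.ofReal ∘ l : Fin d → ℂ) := by
      ext i j
      by_cases hij : i = j
      · subst hij
        simp
      · simp [hij]
    rw [hd, mul_add, add_mul]
    conv_lhs => rw [hsp]
    congr 1
    · rw [mul_smul_comm, smul_mul_assoc, mul_one, hU]
    · rw [mul_smul_comm, smul_mul_assoc]
  have hdet : ((((1 - t : ℝ) : ℂ) • (1 : Matrix (Fin d) (Fin d) ℂ) + (t : ℂ) • K).det) =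
      ((∏ i, ((1 - t) + t * l i) : ℝ) : ℂ) := by
    rw [hM, Matrix.det_mul_right_comm, hU, one_mul, Matrix.det_diagonal]
    push_cast
    rfl
  rw [hdet, Complex.ofReal_re, htr]
  have h := prod_lb (Finset.univ : Finset (Fin d)) (1 - t) (fun i => t * l i) (by linarith)
    (by linarith) (fun i _ => mul_nonneg ht0 (hl0 i))
  rw [Finset.card_univ, Fintype.card_fin, ← Finset.mul_sum] at h
  exact h

theorem t : S_KW := by
  intro d G hG hpsd hbd hpd
  obtain ⟨C, hC⟩ := hbd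
  obtain ⟨X0, hX0, hX0d⟩ := hpd
  rcases Nat.eq_zero_or_pos d with hd | hd
  · subst hd
    refine ⟨X0, hX0, hX0d, ?_⟩
    intro Y _
    simp [Matrix.trace]
  -- the determinant function
  have hdetreal : ∀ X ∈ G, X.det = ((X.det.re : ℝ) : ℂ) ∧ 0 ≤ X.det.re := by
    intro X hX
    have h := (hpsd X hX).det_nonneg
    rw [Complex.le_def] at h
    refine ⟨?_, by simpa using h.1⟩
    apply Complex.ext
    · simp
    · simpa using h.2.symm
  have hbdd : BddAbove ((fun X : Matrix (Fin d) (Fin d) ℂ => X.det.re) '' G) := by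
    refine ⟨(Fintype.card (Fin d)).factorial • C ^ Fintype.card (Fin d), ?_⟩
    rintro _ ⟨X, hX, rfl⟩
    have h := Matrix.det_le (A := X) (abv := IsAbsoluteValue.toAbsoluteValue (norm : ℂ → ℝ))
      (x := C) (fun i j => hC X hX i j)
    exact le_trans (Complex.re_le_norm _) h
  have hne : ((fun X : Matrix (Fin d) (Fin d) ℂ => X.det.re) '' G).Nonempty := ⟨_, X0, hX0, rfl⟩
  set s := sSup ((fun X : Matrix (Fin d) (Fin d) ℂ => X.det.re) '' G) with hs
  have hspos : 0 < s := by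
    have h1 : 0 < X0.det.re := by
      have := hX0d.det_pos
      rw [Complex.lt_def] at this
      simpa using this.1
    exact lt_of_lt_of_le h1 (le_csSup hbdd ⟨X0, hX0, rfl⟩)
  obtain ⟨_, ⟨X, hX, rfl⟩, hXs⟩ := exists_lt_of_lt_csSup hne (show s / 2 < s by linarith)
  simp only at hXs
  have hXdet : X.det ≠ 0 := by
    intro h
    rw [h] at hXs
    simp at hXs
    linarith
  have hXpd : X.PosDef := ((hpsd X hX).posDef_iff_det_ne_zero).2 hXdet
  refine ⟨X, hX, hXpd, ?_⟩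
  intro Y hY
  obtain ⟨B, hB⟩ := CStarAlgebra.nonneg_iff_eq_star_mul_self.mp (hpsd X hX).nonneg
  have hBdet : IsUnit B.det := by
    rw [isUnit_iff_ne_zero]
    intro h
    apply hXdet
    rw [hB, Matrix.det_mul, h, mul_zero]
  have hBs : IsUnit (Bᴴ).det := by
    rw [Matrix.det_conjTranspose]
    exact hBdet.star
  set K := (B⁻¹)ᴴ * Y * B⁻¹ with hK
  have hKpsd : K.PosSemidef := (hpsd Y hY).conjTranspose_mul_mul_same B⁻¹
  have htr : (X⁻¹ * Y).trace = K.trace := by
    rw [hK, Matrix.trace_mul_comm ((B⁻¹)ᴴ * Y) B⁻¹, ← Matrix.mul_assoc, hB,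
      Matrix.star_eq_conjTranspose, Matrix.mul_inv_rev, Matrix.conjTranspose_nonsing_inv]
  have hYK : Y = Bᴴ * K * B := by
    rw [hK, Matrix.conjTranspose_nonsing_inv]
    rw [Matrix.mul_assoc, Matrix.mul_assoc, Matrix.nonsing_inv_mul _ hBdet, Matrix.mul_one,
      ← Matrix.mul_assoc, Matrix.mul_nonsing_inv _ hBs, Matrix.one_mul]
  rw [htr]
  have hdR : (0 : ℝ) < d := by exact_mod_cast hd
  have hd1 : (1 : ℝ) ≤ d := by exact_mod_cast hd
  set τ : ℝ := 1 / (2 * d) with hτ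
  have hτ0 : 0 < τ := by positivity
  have hτ1 : τ ≤ 1 / 2 := by
    rw [hτ]
    apply one_div_le_one_div_of_le (by norm_num)
    linarith
  have hZ : (1 - τ) • X + τ • Y ∈ G :=
    hG hX hY (by linarith) hτ0.le (by ring)
  have hZle : ((1 - τ) • X + τ • Y).det.re ≤ s := le_csSup hbdd ⟨_, hZ, rfl⟩
  have hZf : (1 - τ) • X + τ • Y =
      Bᴴ * (((1 - τ : ℝ) : ℂ) • (1 : Matrix (Fin d) (Fin d) ℂ) + (τ : ℂ) • K) * B := by
    rw [mul_add, add_mul, mul_smul_comm, mul_smul_comm, smul_mul_assoc, smul_mul_assoc, mul_one,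
      ← hYK, ← Matrix.star_eq_conjTranspose, ← hB]
    rfl
  have hdetZ : ((1 - τ) • X + τ • Y).det =
      X.det * (((1 - τ : ℝ) : ℂ) • (1 : Matrix (Fin d) (Fin d) ℂ) + (τ : ℂ) • K).det := by
    rw [hZf, Matrix.det_mul, Matrix.det_mul]
    conv_rhs => rw [hB, Matrix.det_mul, Matrix.star_eq_conjTranspose]
    ring
  have hre : ((1 - τ) • X + τ • Y).det.re =
      X.det.re * ((((1 - τ : ℝ) : ℂ) • (1 : Matrix (Fin d) (Fin d) ℂ) + (τ : ℂ) • K).det).re := by
    rw [hdetZ, (hdetreal X hX).1, Complex.re_ofReal_mul, Complex.ofReal_re]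
  have hlb := det_lb K hKpsd τ hτ0.le (by linarith)
  have hpow : (1 / 2 : ℝ) ≤ (1 - τ) ^ d := by
    have h := one_add_mul_le_pow (a := -τ) (by linarith) d
    have h2 : 1 + (d : ℝ) * -τ = 1 / 2 := by
      rw [hτ]
      field_simp
      norm_num
    rw [h2] at h
    simpa [sub_eq_add_neg] using h
  have htr0 : 0 ≤ K.trace.re := by
    have := hKpsd.trace_nonneg
    rw [Complex.le_def] at this
    simpa using this.1
  have h1 : (1 / 2 : ℝ) * (1 + τ * K.trace.re) ≤
      ((((1 - τ : ℝ) : ℂ) • (1 : Matrix (Fin d) (Fin d) ℂ) + (τ : ℂ) • K).det).re :=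
    le_trans (mul_le_mul_of_nonneg_right hpow (by positivity)) hlb
  have h2 : s / 2 * ((1 / 2 : ℝ) * (1 + τ * K.trace.re)) < s := by
    have hpos : 0 < (1 / 2 : ℝ) * (1 + τ * K.trace.re) := by positivity
    calc s / 2 * ((1 / 2 : ℝ) * (1 + τ * K.trace.re))
        < X.det.re * ((1 / 2 : ℝ) * (1 + τ * K.trace.re)) := mul_lt_mul_of_pos_right hXs hpos
      _ ≤ X.det.re *
          ((((1 - τ : ℝ) : ℂ) • (1 : Matrix (Fin d) (Fin d) ℂ) + (τ : ℂ) • K).det).re :=
          mul_le_mul_of_nonneg_left h1 (by linarith)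
      _ ≤ s := by rw [← hre]; exact hZle
  have h3 : τ * K.trace.re < 3 := by
    by_contra hcon
    push Not at hcon
    nlinarith
  have h4 : K.trace.re = (2 * d) * (τ * K.trace.re) := by
    rw [hτ]
    field_simp
  rw [h4]
  nlinarith

end Pool.Agent.W579.SX.KW
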